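import Pool.Agent.Helper71.W6.Root

/-!
# Cyclic covers of weighted planes: the product cases
-/

set_option autoImplicit false

namespace Pool.Agent.Helper71.W6

open Polynomial
open Pool.Agent.Helper87.CC (IsLC isLC_std ft_of_surj ft_of_hom ft_loc ft_alg)
open Pool.Agent.Helper29.CQ (FormalClass)
open Pool.Agent.Helper67.CQ
open Pool.Agent.Helper9.QP (sg sg_X ex_equiv)
open Pool.Agent.Helper9.TP
open Pool.Agent.Helper71.CP (ev ev_map)
open MvPolynomial (IsWeightedHomogeneous)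

variable {p : ℕ} {P : ∀ (A : Type) [CommRing A], Prop} {k : Type} [Field k]

/-- substitutions of weighted homogeneous polynomials of the right weights -/
theorem wh_sub {w : Fin 3 → ℕ} {F : MvPolynomial (Fin 3) k} {d : ℕ}
    (hF : IsWeightedHomogeneous w F d) {t : Fin 3 → MvPolynomial (Fin 3) k}
    (ht : ∀ i, IsWeightedHomogeneous w (t i) (w i)) :
    IsWeightedHomogeneous w (MvPolynomial.aeval t F) d := by
  rw [MvPolynomial.aeval_def, MvPolynomial.eval₂_eq']
  refine IsWeightedHomogeneous.sum _ _ _ fun m hm => ?_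
  have h1 := hF (MvPolynomial.mem_support_iff.1 hm)
  rw [Finsupp.weight_apply, Finsupp.sum_fintype _ _ (fun i => by simp)] at h1
  rw [MvPolynomial.algebraMap_eq, ← h1]
  refine IsWeightedHomogeneous.C_mul ?_ _
  exact IsWeightedHomogeneous.prod _ _ _ fun i _ => by
    have h2 := (ht i).pow (m i)
    exact h2

/-- the value of a polynomial does not depend on a variable which does not occur -/
theorem nov_ev {F : MvPolynomial (Fin 3) k} {i : Fin 3} (hF : NoV i F) {R : Type} [CommRing R]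
    [Algebra k R] (x y : Fin 3 → R) (h : ∀ l, l ≠ i → x l = y l) :
    MvPolynomial.aeval x F = MvPolynomial.aeval y F := by
  rw [MvPolynomial.aeval_def, MvPolynomial.aeval_def, MvPolynomial.eval₂_eq',
    MvPolynomial.eval₂_eq']
  refine Finset.sum_congr rfl fun m hm => ?_
  congr 1
  refine Finset.prod_congr rfl fun l _ => ?_
  by_cases hl : l = i
  · subst hl
    rw [hF m hm, pow_zero, pow_zero]
  · rw [h l hl]

theorem nov_inv {F : MvPolynomial (Fin 3) k} {i : Fin 3} (hF : NoV i F) :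
    InvP F (Pi.single i 1) := by
  intro R _ _ x y z t
  refine nov_ev hF _ _ fun l hl => ?_
  have h0 : (Pi.single i 1 : Fin 3 → k) l = 0 := Pi.single_eq_of_ne hl 1
  fin_cases l
  · change x + t * algebraMap k R ((Pi.single i 1 : Fin 3 → k) 0) = x
    rw [show (Pi.single i 1 : Fin 3 → k) 0 = 0 from h0, map_zero, mul_zero, add_zero]
  · change y + t * algebraMap k R ((Pi.single i 1 : Fin 3 → k) 1) = y
    rw [show (Pi.single i 1 : Fin 3 → k) 1 = 0 from h0, map_zero, mul_zero, add_zero]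
  · change z + t * algebraMap k R ((Pi.single i 1 : Fin 3 → k) 2) = z
    rw [show (Pi.single i 1 : Fin 3 → k) 2 = 0 from h0, map_zero, mul_zero, add_zero]

section

variable (v : Fin 3 → k) (i : Fin 3) (m : Fin 2 → Fin 3) (Y : Fin 3 → MvPolynomial (Fin 2) k)
  {a b : ℕ} {ws : Fin 3 → ℕ}
  (hv : v i ≠ 0) (hY : Y i = 0) (hm : ∀ s, Y (m s) = MvPolynomial.X s)
  (hall : ∀ l, l = i ∨ ∃ s, l = m s) (hw : ∀ s, ws (m s) = (![a, b] : Fin 2 → ℕ) s)

include hY hm hall hw in
theorem rs_homs {d : ℕ} {F : MvPolynomial (Fin 3) k} (hF : Hom ws d F) :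
    Hom ![a, b] d (rs Y F) := by
  intro R _ _ x t
  have h1 : ∀ y : Fin 2 → R, MvPolynomial.aeval y (rs Y F) =
      MvPolynomial.aeval (fun l => MvPolynomial.aeval y (Y l)) F := by
    intro y
    have h2 : (MvPolynomial.aeval y).comp (rs Y) =
        MvPolynomial.aeval (fun l => MvPolynomial.aeval y (Y l)) := by
      apply MvPolynomial.algHom_ext
      intro l
      simp [rs]
    exact DFunLike.congr_fun h2 F
  rw [h1, h1]
  have h3 := hF R (fun l => MvPolynomial.aeval x (Y l)) t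
  rw [← h3]
  congr 1
  congr 1
  funext l
  rcases hall l with rfl | ⟨s, rfl⟩
  · rw [hY, map_zero, map_zero, mul_zero]
  · rw [hm, MvPolynomial.aeval_X, MvPolynomial.aeval_X, hw]

include hv hY hm hall hw in
theorem prod_steps [Finite k] (hP : FormalClass p P) (hk : (p : k) = 0) {n : ℕ} (hn : n ≠ 0)
    (ha : 0 < a) {d e N : ℕ} {A B u : MvPolynomial (Fin 3) k} (hA : Hom ws d A)
    (hB : Hom ws d B) (hu : Hom ws e u) (hBu : B ∣ u ^ N)
    (iA : InvP A v) (iB : InvP B v) (iu : InvP u v) : QA P n A B ⊥ u := by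
  obtain ⟨f, hf⟩ := ex_equiv v i m Y hv hY hm hall
  apply qa_equiv f
  rw [hf, hf, hf, sg_inv v Y A iA, sg_inv v Y B iB, sg_inv v Y u iu]
  have h1 : rs Y B ∣ rs Y u ^ N := by
    rw [← map_pow]
    exact map_dvd (rs Y) hBu
  exact qa_poly hP h1 (qa_binw hP hk hn (b := b) ha (rs_homs i m Y hY hm hall hw hA)
    (rs_homs i m Y hY hm hall hw hB) (rs_homs i m Y hY hm hall hw hu) h1)

end

/-- the product case: a variable does not occur -/
theorem qa_nov [Finite k] (hP : FormalClass p P) (hk : (p : k) = 0) {n : ℕ} (hn : n ≠ 0)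
    {w : Fin 3 → ℕ} (hw : ∀ i, 0 < w i) {d e N : ℕ} {A B u : MvPolynomial (Fin 3) k}
    (hA : Hom w d A) (hB : Hom w d B) (hu : Hom w e u) (hBu : B ∣ u ^ N) (i : Fin 3)
    (nA : NoV i A) (nB : NoV i B) (nu : NoV i u) : QA P n A B ⊥ u := by
  have hi : (Pi.single i 1 : Fin 3 → k) i ≠ 0 := by
    rw [Pi.single_eq_same]
    exact one_ne_zero
  have iA := nov_inv nA
  have iB := nov_inv nB
  have iu := nov_inv nu
  fin_cases i
  · refine prod_steps _ 0 ![1, 2] ![0, MvPolynomial.X 0, MvPolynomial.X 1] (a := w 1) (b := w 2)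
      hi rfl ?_ ?_ ?_ hP hk hn (hw 1) hA hB hu hBu iA iB iu
    · intro s
      fin_cases s <;> rfl
    · intro l
      fin_cases l
      · exact Or.inl rfl
      · exact Or.inr ⟨0, rfl⟩
      · exact Or.inr ⟨1, rfl⟩
    · intro s
      fin_cases s <;> rfl
  · refine prod_steps _ 1 ![0, 2] ![MvPolynomial.X 0, 0, MvPolynomial.X 1] (a := w 0) (b := w 2)
      hi rfl ?_ ?_ ?_ hP hk hn (hw 0) hA hB hu hBu iA iB iu
    · intro s
      fin_cases s <;> rfl
    · intro l
      fin_cases l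
      · exact Or.inr ⟨0, rfl⟩
      · exact Or.inl rfl
      · exact Or.inr ⟨1, rfl⟩
    · intro s
      fin_cases s <;> rfl
  · refine prod_steps _ 2 ![0, 1] ![MvPolynomial.X 0, MvPolynomial.X 1, 0] (a := w 0) (b := w 1)
      hi rfl ?_ ?_ ?_ hP hk hn (hw 0) hA hB hu hBu iA iB iu
    · intro s
      fin_cases s <;> rfl
    · intro l
      fin_cases l
      · exact Or.inr ⟨0, rfl⟩
      · exact Or.inr ⟨1, rfl⟩
      · exact Or.inl rfl
    · intro s
      fin_cases s <;> rfl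

/-- graded automorphisms -/
noncomputable def chgW {w : Fin 3 → ℕ} (τ : ChgW w k) :
    MvPolynomial (Fin 3) k ≃ₐ[k] MvPolynomial (Fin 3) k :=
  AlgEquiv.ofAlgHom (MvPolynomial.aeval τ.fwd) (MvPolynomial.aeval τ.bwd)
    (by
      apply MvPolynomial.algHom_ext
      intro i
      rw [AlgHom.comp_apply, MvPolynomial.aeval_X, τ.fwd_bwd]
      rfl)
    (by
      apply MvPolynomial.algHom_ext
      intro i
      rw [AlgHom.comp_apply, MvPolynomial.aeval_X, τ.bwd_fwd]
      rfl)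

theorem chgW_apply {w : Fin 3 → ℕ} (τ : ChgW w k) (x : MvPolynomial (Fin 3) k) :
    (chgW τ).toRingEquiv x = MvPolynomial.aeval τ.fwd x := rfl

/-- **(W6)** the product case -/
theorem qa_chg [Finite k] (hP : FormalClass p P) (hk : (p : k) = 0) {n : ℕ} (hn : n ≠ 0)
    {w : Fin 3 → ℕ} (hw : ∀ i, 0 < w i) {d e N : ℕ} {A B u : MvPolynomial (Fin 3) k}
    (hA : IsWeightedHomogeneous w A d) (hB : IsWeightedHomogeneous w B d)
    (hu : IsWeightedHomogeneous w u e) (hBu : B ∣ u ^ N) (τ : ChgW w k) (i : Fin 3)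
    (nA : NoV i (MvPolynomial.aeval τ.fwd A)) (nB : NoV i (MvPolynomial.aeval τ.fwd B))
    (nu : NoV i (MvPolynomial.aeval τ.fwd u)) : QA P n A B ⊥ u := by
  apply qa_equiv (chgW τ).toRingEquiv
  rw [chgW_apply, chgW_apply, chgW_apply]
  refine qa_nov hP hk hn hw (Hom.of_wh (wh_sub hA τ.hfwd)) (Hom.of_wh (wh_sub hB τ.hfwd))
    (Hom.of_wh (wh_sub hu τ.hfwd)) (N := N) ?_ i nA nB nu
  rw [← map_pow]
  exact map_dvd (MvPolynomial.aeval τ.fwd) hBu

/-! ### Closure properties of `NoV` -/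

theorem nov_mul {i : Fin 3} {F G : MvPolynomial (Fin 3) k} (hF : NoV i F) (hG : NoV i G) :
    NoV i (F * G) := by
  classical
  intro m hm
  obtain ⟨a, ha, b, hb, rfl⟩ := Finset.mem_add.1 (MvPolynomial.support_mul F G hm)
  rw [Finsupp.add_apply, hF a ha, hG b hb]

theorem nov_one {i : Fin 3} : NoV i (1 : MvPolynomial (Fin 3) k) := by
  intro m hm
  rw [MvPolynomial.mem_support_iff, MvPolynomial.coeff_one] at hm
  by_cases h : 0 = m
  · rw [← h]
    rfl
  · rw [if_neg h] at hm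
    exact absurd rfl hm

theorem nov_pow {i : Fin 3} {F : MvPolynomial (Fin 3) k} (hF : NoV i F) (n : ℕ) :
    NoV i (F ^ n) := by
  induction n with
  | zero =>
    rw [pow_zero]
    exact nov_one
  | succ n ih =>
    rw [pow_succ]
    exact nov_mul ih hF

/-- **(W6)** the product case, in the form of the trinomials -/
theorem qa_tri [Finite k] (hP : FormalClass p P) (hk : (p : k) = 0) {n : ℕ} (hn : n ≠ 0)
    {w : Fin 3 → ℕ} (hw : ∀ i, 0 < w i) {d₀ d₁ d₂ s t : ℕ} {F₀ F₁ F₂ : MvPolynomial (Fin 3) k}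
    (h₀ : IsWeightedHomogeneous w F₀ d₀) (h₁ : IsWeightedHomogeneous w F₁ d₁)
    (h₂ : IsWeightedHomogeneous w F₂ d₂) (e : s * d₀ + t * d₂ = (s + t) * d₁) (τ : ChgW w k)
    (i : Fin 3) (n₀ : NoV i (MvPolynomial.aeval τ.fwd F₀))
    (n₁ : NoV i (MvPolynomial.aeval τ.fwd F₁)) (n₂ : NoV i (MvPolynomial.aeval τ.fwd F₂)) :
    QA P n (F₀ ^ s * F₂ ^ t) (F₁ ^ (s + t)) ⊥ (F₀ * F₁ * F₂) := by
  have hA : IsWeightedHomogeneous w (F₀ ^ s * F₂ ^ t) ((s + t) * d₁) := by
    have h := (h₀.pow s).mul (h₂.pow t)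
    rw [smul_eq_mul, smul_eq_mul, e] at h
    exact h
  have hB : IsWeightedHomogeneous w (F₁ ^ (s + t)) ((s + t) * d₁) := by
    have h := h₁.pow (s + t)
    rw [smul_eq_mul] at h
    exact h
  refine qa_chg hP hk hn hw (N := s + t) hA hB ((h₀.mul h₁).mul h₂) ?_ τ i ?_ ?_ ?_
  · rw [mul_pow, mul_pow]
    exact ⟨F₀ ^ (s + t) * F₂ ^ (s + t), by ring⟩
  · rw [map_mul, map_pow, map_pow]
    exact nov_mul (nov_pow n₀ s) (nov_pow n₂ t)
  · rw [map_pow]
    exact nov_pow n₁ _
  · rw [map_mul, map_mul]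
    exact nov_mul (nov_mul n₀ n₁) n₂

end Pool.Agent.Helper71.W6
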