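import Pool.Agent.Helper79.TP.Prod6
import Pool.Agent.Helper9.TP.Defs3

/-!
# Cyclic covers of weighted planes: roots of the coordinates
-/

set_option autoImplicit false

namespace Pool.Agent.Helper71.W6

open Polynomial
open Pool.Agent.Helper87.CC (IsLC isLC_std ft_of_surj ft_of_hom ft_loc ft_alg)
open Pool.Agent.Helper29.CQ (FormalClass)
open Pool.Agent.Helper67.CQ
open Pool.Agent.Helper9.QP (PK lc_ft ft_fin)
open Pool.Agent.Helper9.TP

variable {p : ℕ} {P : ∀ (A : Type) [CommRing A], Prop}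

/-- roots and cyclic covers commute -/
theorem kum_kum {T T' B B' : Type} [CommRing T] [CommRing T'] [CommRing B] [CommRing B']
    {o : T →+* T'} {ξ : T'} {m : ℕ} {c : T} (hK : IsKum o ξ m c) {i : T →+* B} {w : B} {n : ℕ}
    {a : T} (hB : IsKum i w n a) {i' : T' →+* B'} {w' : B'} (hB' : IsKum i' w' n (o a)) :
    ∃ r : B →+* B', IsKum r (i' ξ) m (i c) := by
  obtain ⟨r, hr1, hr2⟩ := hB.ex B' (i'.comp o) w' hB'.rel
  have hri : ∀ x, r (i x) = i' (o x) := fun x => RingHom.congr_fun hr1 x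
  refine ⟨r, ?_, ?_, ?_⟩
  · rw [← map_pow, hK.rel, hri]
  · intro E _ v e he
    obtain ⟨f1, hf1, hf2⟩ := hK.ex E (v.comp i) e he
    have hf1' : ∀ x, f1 (o x) = v (i x) := fun x => RingHom.congr_fun hf1 x
    obtain ⟨f, hf3, hf4⟩ := hB'.ex E f1 (v w) (by
      rw [← map_pow, hB.rel, hf1'])
    have hf3' : ∀ x, f (i' x) = f1 x := fun x => RingHom.congr_fun hf3 x
    refine ⟨f, ?_, ?_⟩
    · refine hB.uniq E _ _ ?_ ?_
      · refine RingHom.ext fun x => ?_
        change f (r (i x)) = v (i x)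
        rw [hri, hf3', hf1']
      · change f (r w) = v w
        rw [hr2, hf4]
    · rw [hf3', hf2]
  · intro E _ h h' h1 h2
    have h1' : ∀ x, h (r x) = h' (r x) := fun x => RingHom.congr_fun h1 x
    refine hB'.uniq E _ _ ?_ ?_
    · refine hK.uniq E _ _ ?_ h2
      refine RingHom.ext fun x => ?_
      change h (i' (o x)) = h' (i' (o x))
      rw [← hri, h1']
    · rw [← hr2, h1']

/-- transfer along a root of a function -/
theorem pk_root (hP : FormalClass p P) {n m : ℕ} (hm : m ≠ 0) {T T' : Type} [CommRing T]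
    [CommRing T'] (hT : Algebra.FiniteType ℤ T) {o : T →+* T'} {ξ : T'} {c : T}
    (hK : IsKum o ξ m c) (a : T) (h : PK P n (o a)) : PK P n a := by
  have hB := isKum_std n a
  obtain ⟨r, hr⟩ := kum_kum hK hB (isKum_std n (o a))
  set B := AdjoinRoot (X ^ n - C a : T[X])
  have hBft : Algebra.FiniteType ℤ B := hB.ft hT
  obtain ⟨e⟩ := (isKum_std m (AdjoinRoot.of (X ^ n - C a : T[X]) c)).equiv (RingEquiv.refl B) hr
  have h1 : P (AdjoinRoot (X ^ m - C (AdjoinRoot.of (X ^ n - C a : T[X]) c) : B[X])) :=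
    hP.iso _ _ e.symm h
  have hmon : (X ^ m - C (AdjoinRoot.of (X ^ n - C a : T[X]) c) : B[X]).Monic :=
    monic_X_pow_sub_C _ hm
  rcases subsingleton_or_nontrivial B with h0 | h0
  · exact p_zero hP h0
  have := hmon.free_adjoinRoot
  have := hmon.finite_adjoinRoot
  have := Pool.Agent.Helper71.PN.adj_nontrivial hmon (by
    rw [natDegree_X_pow_sub_C]
    exact Nat.pos_of_ne_zero hm)
  exact hP.transfer B _ hBft h1

variable {k : Type} [Field k]

/-- the substitution of `X_i ^ m` for `X_i` -/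
noncomputable def rt {σ : Type} [DecidableEq σ] (i : σ) (m : ℕ) :
    MvPolynomial σ k →ₐ[k] MvPolynomial σ k :=
  MvPolynomial.aeval (Function.update MvPolynomial.X i (MvPolynomial.X i ^ m))

theorem aeval_rt {σ : Type} [DecidableEq σ] (i : σ) (m : ℕ) {R : Type} [CommRing R] [Algebra k R]
    (x : σ → R) (F : MvPolynomial σ k) : MvPolynomial.aeval x (rt i m F) =
      MvPolynomial.aeval (Function.update x i (x i ^ m)) F := by
  have h1 : (MvPolynomial.aeval x).comp (rt (k := k) i m) =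
      MvPolynomial.aeval (Function.update x i (x i ^ m)) := by
    apply MvPolynomial.algHom_ext
    intro l
    rw [AlgHom.comp_apply, rt, MvPolynomial.aeval_X, MvPolynomial.aeval_X]
    by_cases h : l = i
    · subst h
      rw [Function.update_self, Function.update_self, map_pow, MvPolynomial.aeval_X]
    · rw [Function.update_of_ne h, Function.update_of_ne h, MvPolynomial.aeval_X]
  exact DFunLike.congr_fun h1 F

theorem Hom.rt {σ : Type} [DecidableEq σ] {w w' : σ → ℕ} {i : σ} {m d : ℕ} (h : w i = w' i * m)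
    (h' : ∀ l, l ≠ i → w l = w' l) {F : MvPolynomial σ k} (hF : Hom w d F) :
    Hom w' d (W6.rt i m F) := by
  intro R _ _ x t
  rw [aeval_rt, aeval_rt, ← hF]
  congr 2
  funext l
  by_cases hl : l = i
  · subst hl
    rw [Function.update_self, Function.update_self, h, mul_pow, ← pow_mul]
  · rw [Function.update_of_ne hl, Function.update_of_ne hl, h' l hl]

theorem lc_rt {σ : Type} [DecidableEq σ] (i : σ) {m : ℕ} {u : MvPolynomial σ k} {T T' : Type}
    [CommRing T] [CommRing T'] {j : MvPolynomial σ k →+* T} (hj : IsLC j ⊥ u) {o : T →+* T'}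
    {ξ : T'} (hK : IsKum o ξ m (j (MvPolynomial.X i))) :
    ∃ j' : MvPolynomial σ k →+* T', IsLC j' ⊥ (rt i m u) ∧ ∀ x, j' (rt i m x) = o (j x) := by
  let j' : MvPolynomial σ k →+* T' := MvPolynomial.eval₂Hom ((o.comp j).comp MvPolynomial.C)
    (Function.update (fun l => o (j (MvPolynomial.X l))) i ξ)
  have hC : ∀ c, j' (MvPolynomial.C c) = o (j (MvPolynomial.C c)) := fun c =>
    MvPolynomial.eval₂Hom_C _ _ _
  have hXi : j' (MvPolynomial.X i) = ξ := by
    change MvPolynomial.eval₂Hom _ _ (MvPolynomial.X i) = ξ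
    rw [MvPolynomial.eval₂Hom_X', Function.update_self]
  have hXl : ∀ l, l ≠ i → j' (MvPolynomial.X l) = o (j (MvPolynomial.X l)) := by
    intro l hl
    change MvPolynomial.eval₂Hom _ _ (MvPolynomial.X l) = _
    rw [MvPolynomial.eval₂Hom_X', Function.update_of_ne hl]
  have hrC : ∀ c, rt (k := k) i m (MvPolynomial.C c) = MvPolynomial.C c := fun c =>
    (rt (k := k) i m).commutes c
  have hrXi : rt (k := k) i m (MvPolynomial.X i) = MvPolynomial.X i ^ m := by
    rw [rt, MvPolynomial.aeval_X, Function.update_self]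
  have hrXl : ∀ l, l ≠ i → rt (k := k) i m (MvPolynomial.X l) = MvPolynomial.X l := by
    intro l hl
    rw [rt, MvPolynomial.aeval_X, Function.update_of_ne hl]
  have key : j'.comp (rt (k := k) i m).toRingHom = o.comp j := by
    apply MvPolynomial.ringHom_ext
    · intro c
      change j' (rt i m (MvPolynomial.C c)) = o (j (MvPolynomial.C c))
      rw [hrC, hC]
    · intro l
      change j' (rt i m (MvPolynomial.X l)) = o (j (MvPolynomial.X l))
      by_cases hl : l = i
      · subst hl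
        rw [hrXi, map_pow, hXi, hK.rel]
      · rw [hrXl l hl, hXl l hl]
  have key' : ∀ x, j' (rt i m x) = o (j x) := fun x => RingHom.congr_fun key x
  refine ⟨j', ⟨?_, ?_, ?_, ?_⟩, key'⟩
  · intro b hb
    rw [Ideal.mem_bot.1 hb, map_zero]
  · rw [key']
    exact hj.unit.map o
  · intro E _ v _ hv
    obtain ⟨g0, hg0⟩ := hj.ex E (v.comp (rt (k := k) i m).toRingHom) (fun b hb => by
      rw [Ideal.mem_bot.1 hb, map_zero]) hv
    have hg0' : ∀ x, g0 (j x) = v (rt i m x) := fun x => RingHom.congr_fun hg0 x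
    obtain ⟨g, hg1, hg2⟩ := hK.ex E g0 (v (MvPolynomial.X i)) (by
      rw [hg0', hrXi, map_pow])
    have hg1' : ∀ x, g (o x) = g0 x := fun x => RingHom.congr_fun hg1 x
    refine ⟨g, ?_⟩
    apply MvPolynomial.ringHom_ext
    · intro c
      change g (j' (MvPolynomial.C c)) = v (MvPolynomial.C c)
      rw [hC, hg1', hg0', hrC]
    · intro l
      change g (j' (MvPolynomial.X l)) = v (MvPolynomial.X l)
      by_cases hl : l = i
      · subst hl
        rw [hXi, hg2]
      · rw [hXl l hl, hg1', hg0', hrXl l hl]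
  · intro E _ g g' hh
    have hh' : ∀ x, g (j' x) = g' (j' x) := fun x => RingHom.congr_fun hh x
    refine hK.uniq E _ _ ?_ ?_
    · apply hj.uniq
      refine RingHom.ext fun x => ?_
      change g (o (j x)) = g' (o (j x))
      rw [← key', hh']
    · rw [← hXi, hh']

/-- **transfer along the root of a coordinate** -/
theorem qa_rt [Finite k] (hP : FormalClass p P) {N : ℕ} (i : Fin N) {m n : ℕ} (hm : m ≠ 0)
    {A B u : MvPolynomial (Fin N) k} (h : QA P n (rt i m A) (rt i m B) ⊥ (rt i m u)) :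
    QA P n A B ⊥ u := by
  intro T _ j a hj hG ha
  have hK := isKum_std m (j (MvPolynomial.X i))
  obtain ⟨j', hj', hjr⟩ := lc_rt i hj hK
  refine pk_root hP hm (lc_ft hj (ft_fin N)) hK a (h _ j' _ hj' ?_ ?_)
  · rw [hjr]
    exact hG.map _
  · rw [hjr, hjr, ← map_mul, ha]

/-- **forms in two variables, arbitrary weights** -/
theorem qa_binw [Finite k] (hP : FormalClass p P) (hk : (p : k) = 0) {n : ℕ} (hn : n ≠ 0)
    {a b d e N : ℕ} (ha : 0 < a) {A B u : MvPolynomial (Fin 2) k} (hA : Hom ![a, b] d A)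
    (hB : Hom ![a, b] d B) (hu : Hom ![a, b] e u) (hBu : B ∣ u ^ N) : QA P n A B ⊥ u := by
  have h1 : (![a, b] : Fin 2 → ℕ) 0 = (![1, b] : Fin 2 → ℕ) 0 * a := by simp
  have h2 : ∀ l : Fin 2, l ≠ 0 → (![a, b] : Fin 2 → ℕ) l = (![1, b] : Fin 2 → ℕ) l := by
    intro l hl
    fin_cases l
    · exact absurd rfl hl
    · rfl
  refine qa_rt hP 0 (Nat.pos_iff_ne_zero.1 ha) (qa_bin hP hk hn (b := b) (Hom.rt h1 h2 hA)
    (Hom.rt h1 h2 hB) (Hom.rt h1 h2 hu) (N := N) ?_)
  rw [← map_pow]
  exact map_dvd (rt 0 a) hBu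

end Pool.Agent.Helper71.W6
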